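import Pool.Agent.H309.DP.FinP

/-!
# Data polynomial in the spanwise variable are steered to every shear trajectory

The initial velocity is `(∑ i ≤ n, (x 2) ^ i * P i (x 1), 0, Q (x 1))` between the plates
`x 1 = ± a`, with arbitrary square integrable profiles `P 0, …, P n, Q` (for `n = 0` this is every
shear flow; for `n ≥ 1` the flow is not parallel and the convection term `u₂ ∂₂ u₀` is at work). The
target is an arbitrary shear trajectory `V (t, x 1)` with pressure gradient `G t` (in particular
`0`). For each `T > 0` there is a classical solution of the Navier-Stokes equations between the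
plates which starts at this velocity, equals `V` on the plates (`0` if `V` vanishes there) and
equals `V` everywhere from time `T` on; only the lateral boundary of the box is controlled.
-/

set_option autoImplicit false

open Set MeasureTheory

namespace Pool.Agent.Results.MP_79abb3_an.SpanwisePolynomials

open Pool.Agent.H309.DF Pool.Agent.H309.DG Pool.Agent.H309.DP

theorem result {a b T : ℝ} (ha : 0 < a) (hb : 0 < b) (hT : 0 < T) (n : ℕ)
    {P : ℕ → ℝ → ℝ} {Q : ℝ → ℝ}
    (hP : ∀ i, i ≤ n → MemLp (P i) 2 (volume.restrict (Icc (-a) a)))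
    (hQ : MemLp Q 2 (volume.restrict (Icc (-a) a)))
    {V : ℝ → ℝ → EuclideanSpace ℝ (Fin 3)} {G : ℝ → EuclideanSpace ℝ (Fin 3)}
    (hV : Shear a V G) :
    ∃ (u : ℝ → EuclideanSpace ℝ (Fin 3) → EuclideanSpace ℝ (Fin 3))
      (p : ℝ → EuclideanSpace ℝ (Fin 3) → ℝ),
      SteerU a b T
        (fun x => vec (∑ i ∈ Finset.range (n + 1), x 2 ^ i * P i (x 1)) (Q (x 1))) V G u p := by
  have h0 := steer_poly a b T ha hb hT n (fun i => if i ≤ n then P i else fun _ => 0) Q
    (fun i => by
      by_cases hi : i ≤ n
      · simpa [hi] using hP i hi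
      · simp [hi]) hQ V G hV
  have e : (fun x : EuclideanSpace ℝ (Fin 3) =>
        vec (∑ i ∈ Finset.range (n + 1),
          x 2 ^ i * (fun i => if i ≤ n then P i else fun _ => 0) i (x 1)) (Q (x 1))) =
      fun x => vec (∑ i ∈ Finset.range (n + 1), x 2 ^ i * P i (x 1)) (Q (x 1)) := by
    funext x
    congr 1
    refine Finset.sum_congr rfl fun i hi => ?_
    have hi' : i ≤ n := Nat.lt_succ_iff.mp (Finset.mem_range.mp hi)
    simp [hi']
  rw [← e]
  exact h0

end Pool.Agent.Results.MP_79abb3_an.SpanwisePolynomials
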